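import Mathlib
import Pool.Agent.Helper507.Harm

set_option autoImplicit false

open Finset Filter Topology

namespace Pool.Agent.Results.MP_4a64c7_nt.BelowLogTwo

/-- `delta N` is the least nonzero distance between `1` and a sum of reciprocals of distinct
integers from `{1, ..., N}`. -/
noncomputable def delta (N : ℕ) : ℝ :=
  sInf {x : ℝ | ∃ A : Finset ℕ, A ⊆ Finset.Icc 1 N ∧ ∑ n ∈ A, (1 : ℝ) / (n : ℝ) ≠ 1 ∧
    x = |1 - ∑ n ∈ A, (1 : ℝ) / (n : ℝ)|}

open Pool.Agent.Helper507.Harm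

lemma delta_mem (N : ℕ) : ∃ A : Finset ℕ, A ⊆ Finset.Icc 1 N ∧ H A ≠ 1 ∧
    delta N = |1 - H A| := by
  have hne : ({x : ℝ | ∃ A : Finset ℕ, A ⊆ Finset.Icc 1 N ∧ ∑ n ∈ A, (1 : ℝ) / (n : ℝ) ≠ 1 ∧
      x = |1 - ∑ n ∈ A, (1 : ℝ) / (n : ℝ)|}).Nonempty :=
    ⟨_, ∅, Finset.empty_subset _, by simp, rfl⟩
  have hfin : ({x : ℝ | ∃ A : Finset ℕ, A ⊆ Finset.Icc 1 N ∧ ∑ n ∈ A, (1 : ℝ) / (n : ℝ) ≠ 1 ∧
      x = |1 - ∑ n ∈ A, (1 : ℝ) / (n : ℝ)|}).Finite := by
    refine ((Finset.Icc 1 N).powerset.finite_toSet.image fun A => |1 - H A|).subset ?_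
    rintro x ⟨A, hA, -, rfl⟩
    exact ⟨A, Finset.mem_coe.2 (Finset.mem_powerset.2 hA), rfl⟩
  exact hne.csInf_mem hfin

lemma delta_pos (N : ℕ) : 0 < delta N := by
  obtain ⟨A, -, h1, h2⟩ := delta_mem N
  rw [h2]
  exact abs_pos.2 (sub_ne_zero.2 h1.symm)

lemma delta_le {N : ℕ} {A : Finset ℕ} (hA : A ⊆ Finset.Icc 1 N) (h1 : H A ≠ 1) :
    delta N ≤ |1 - H A| := by
  refine csInf_le ⟨0, ?_⟩ ⟨A, hA, h1, rfl⟩
  rintro x ⟨B, -, -, rfl⟩
  exact abs_nonneg _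

lemma good_iff (c : ℝ) (n : ℕ) : Good c n ↔ Real.exp (-(c * n)) < delta n := by
  constructor
  · intro h
    obtain ⟨A, h1, h2, h3⟩ := delta_mem n
    rw [h3]
    exact h A h1 h2
  · intro h A h1 h2
    exact h.trans_le (delta_le h1 h2)

open Classical in
/-- Bounds for `delta N`.
(a) If `- log (delta N) / N` tends to `c` then `c < 0.6931`, which is less than `log 2`.
(b) For some `K`, every closed interval of radius `e^{-0.6931 N}` contains at most `K` values of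
sums of reciprocals of distinct integers from `{1, ..., N}`, for all `N`.
(c) For `5/6 < c < 1` the set of `n` with `delta n ≤ e^{-c n}` has upper density at most
`4 (1 - c) / (2 c - 1) < 1`.
(d) For `c > 5/6` the set of `n` with `delta n > e^{-c n}` has positive lower density.
(e) For `5/6 < c < 1` and `κ > 1 / c`, every interval `[M, κ M]` with `M` large contains an `n`
with `delta n > e^{-c n}`. -/
theorem result :
    ((6931 / 10000 : ℝ) < Real.log 2 ∧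
      ∀ c : ℝ, Tendsto (fun N : ℕ => -Real.log (delta N) / (N : ℝ)) atTop (𝓝 c) →
        c < 6931 / 10000) ∧
    (∃ K : ℕ, ∀ (N : ℕ) (x : ℝ) (T : Finset ℝ),
      (∀ t ∈ T, (∃ A : Finset ℕ, A ⊆ Finset.Icc 1 N ∧ t = ∑ n ∈ A, (1 : ℝ) / (n : ℝ)) ∧
        |t - x| ≤ Real.exp (-(6931 / 10000 * N))) → T.card ≤ K) ∧
    (∀ c : ℝ, 5 / 6 < c → c < 1 → 4 * (1 - c) / (2 * c - 1) < 1 ∧
      ∀ β : ℝ, 4 * (1 - c) / (2 * c - 1) < β → ∃ K : ℝ, ∀ x : ℕ,
        (((Icc 1 x).filter fun n : ℕ => delta n ≤ Real.exp (-(c * n))).card : ℝ) ≤ β * x + K) ∧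
    (∀ c : ℝ, 5 / 6 < c → ∃ ρ : ℝ, 0 < ρ ∧ ∃ N : ℕ, ∀ x : ℕ, N ≤ x →
      ρ * x ≤ (((Icc 1 x).filter fun n : ℕ => Real.exp (-(c * n)) < delta n).card : ℝ)) ∧
    (∀ c κ : ℝ, 5 / 6 < c → c < 1 → 1 / c < κ → ∃ N : ℕ, ∀ M : ℕ, N ≤ M →
      ∃ n : ℕ, M ≤ n ∧ (n : ℝ) ≤ κ * M ∧ Real.exp (-(c * n)) < delta n) := by
  refine ⟨⟨?_, fun c hc => ?_⟩, ?_, fun c hc hc1 => ⟨?_, fun β hβ => ?_⟩, fun c hc => ?_,
    fun c κ hc hc1 hκ => ?_⟩
  · have := Real.log_two_gt_d9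
    linarith
  · refine limit_bound (f := delta) (fun N => ⟨delta_pos N, ?_⟩) hc
    obtain ⟨A, h1, -, h3⟩ := delta_mem N
    exact ⟨A, h1, h3⟩
  · obtain ⟨K, hK⟩ := cluster_aux
    refine ⟨K, fun N x T hT => hK N x T fun t ht => ?_⟩
    obtain ⟨h1, h2⟩ := hT t ht
    refine ⟨h1, h2.trans (Real.exp_le_exp.2 ?_)⟩
    have : (0 : ℝ) ≤ N := Nat.cast_nonneg _
    linarith
  · rw [div_lt_one (by linarith)]
    linarith
  · obtain ⟨K, hK⟩ := count hc hc1 hβ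
    refine ⟨K, fun x => le_trans (le_of_eq ?_) (hK x)⟩
    congr 2
    ext n
    simp only [Finset.mem_filter, good_iff, not_lt]
  · set c' : ℝ := min c (15 / 16) with hc'
    have h1 : 5 / 6 < c' := lt_min hc (by norm_num)
    have h2 : c' ≤ 15 / 16 := min_le_right _ _
    have h3 : c' ≤ c := min_le_left _ _
    have h2c : 0 < 2 * c' - 1 := by linarith
    have h4 : 4 * (1 - c') / (2 * c' - 1) < 1 := by
      rw [div_lt_one h2c]
      linarith
    set β : ℝ := (1 + 4 * (1 - c') / (2 * c' - 1)) / 2 with hβ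
    have hβ1 : 4 * (1 - c') / (2 * c' - 1) < β := by
      rw [hβ]
      linarith
    have hβ2 : β < 1 := by
      rw [hβ]
      linarith
    obtain ⟨K, hK⟩ := count h1 (by linarith) hβ1
    refine ⟨(1 - β) / 2, by linarith, ⌈2 * |K| / (1 - β)⌉₊, fun x hx => ?_⟩
    have hx1 : 2 * |K| / (1 - β) ≤ x := (Nat.le_ceil _).trans (by exact_mod_cast hx)
    rw [div_le_iff₀ (by linarith)] at hx1
    have h5 := hK x
    have h6 : ((Icc 1 x).filter fun n => ¬ Good c' n).card +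
        ((Icc 1 x).filter fun n => Good c' n).card = x := by
      rw [add_comm, Finset.card_filter_add_card_filter_not]
      simp
    have h6' : (((Icc 1 x).filter fun n => ¬ Good c' n).card : ℝ) +
        (((Icc 1 x).filter fun n => Good c' n).card : ℝ) = x := by exact_mod_cast h6
    have h7 : (Icc 1 x).filter (fun n => Good c' n) ⊆ (Icc 1 x).filter fun n : ℕ =>
        Real.exp (-(c * n)) < delta n := by
      intro n hn
      rw [Finset.mem_filter] at hn ⊢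
      exact ⟨hn.1, (good_iff c n).1 (good_mono h3 hn.2)⟩
    have h8 := Finset.card_le_card h7
    have h8' : (((Icc 1 x).filter fun n => Good c' n).card : ℝ) ≤
        (((Icc 1 x).filter fun n : ℕ => Real.exp (-(c * n)) < delta n).card : ℝ) := by
      exact_mod_cast h8
    have h9 := le_abs_self K
    nlinarith
  · have hc0 : 0 < c := by linarith
    rw [div_lt_iff₀ hc0] at hκ
    obtain ⟨N, hN⟩ := syndetic hc hc1 hκ
    refine ⟨N, fun M hM => ?_⟩
    obtain ⟨n, h1, h2, h3⟩ := hN M hM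
    exact ⟨n, h1, h2, (good_iff c n).1 h3⟩

end Pool.Agent.Results.MP_4a64c7_nt.BelowLogTwo
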